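import Pool.Agent.Helper75.PZ.Stmts2

/-! # Row ALG: the algebra of the twisted operators -/

set_option autoImplicit false

universe u

open Module

namespace Pool.Agent.Helper43.PZ

open Pool.Agent.Helper75.PZ

variable {F M : Type u} [Field F] [Field M] [Algebra F M]

theorem alg_comm (σ : M ≃ₐ[F] M) (φ ψ : HS M →ₐ[F] HS M) (hφ : PHI σ φ) (hψ : PSI ψ)
    (h : HS M) : φ (ψ h) = ψ (φ h) := by
  apply HahnSeries.ext
  funext γ'
  by_cases hd : (6 : ℤ) ∣ n1 γ'
  · obtain ⟨m, hm⟩ := hd
    have h1 : n1 γ' = 6 * n1 (toLex (m, n2 γ') : G2) := hm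
    have h2 : n2 γ' = n2 (toLex (m, n2 γ') : G2) := rfl
    rw [hφ, hψ.1 h _ γ' h1 h2, hψ.1 (φ h) _ γ' h1 h2, hφ, ← h2]
  · rw [hφ, hψ.2 h γ' hd, hψ.2 (φ h) γ' hd, map_zero, mul_zero]

section ops

variable (φ ψ : HS M →ₐ[F] HS M)

theorem alg_add (e e' : Fin 6 → HS M) (f : HS M) :
    op φ ψ (e + e') f = op φ ψ e f + op φ ψ e' f := by
  unfold op
  rw [← Finset.sum_add_distrib]
  apply Finset.sum_congr rfl
  intro l _
  rw [Pi.add_apply, map_add]
  ring

theorem alg_neg (e : Fin 6 → HS M) (f : HS M) : op φ ψ (-e) f = -op φ ψ e f := by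
  unfold op
  rw [← Finset.sum_neg_distrib]
  apply Finset.sum_congr rfl
  intro l _
  rw [Pi.neg_apply, map_neg]
  ring

theorem alg_smul (k : HS M) (e : Fin 6 → HS M) (f : HS M) :
    op φ ψ (fun l => k * e l) f = ψ k * op φ ψ e f := by
  unfold op
  rw [Finset.mul_sum]
  apply Finset.sum_congr rfl
  intro l _
  rw [map_mul]
  ring

theorem alg_single (k f : HS M) : op φ ψ (Pi.single 0 k) f = ψ k * f := by
  unfold op
  rw [Finset.sum_eq_single 0]
  · rw [Pi.single_eq_same]
    simp
  · intro l _ hl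
    rw [Pi.single_eq_of_ne hl, map_zero, zero_mul, zero_mul]
  · intro h
    exact absurd (Finset.mem_univ _) h

theorem alg_itsmul (n : ℕ) (r : F) (f : HS M) : φ^[n] (r • f) = r • φ^[n] f := by
  induction n with
  | zero => rfl
  | succ n ih => rw [Function.iterate_succ_apply', Function.iterate_succ_apply', ih, map_smul]

theorem alg_itmul (n : ℕ) (v f : HS M) (hv : φ v = v) : φ^[n] (v * f) = v * φ^[n] f := by
  induction n with
  | zero => rfl
  | succ n ih => rw [Function.iterate_succ_apply', Function.iterate_succ_apply', ih, map_mul, hv]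

theorem alg_fmul (e : Fin 6 → HS M) (v f : HS M) (hv : φ v = v) :
    op φ ψ e (v * f) = v * op φ ψ e f := by
  unfold op
  rw [Finset.mul_sum]
  apply Finset.sum_congr rfl
  intro l _
  rw [alg_itmul φ _ v f hv]
  ring

/-- the operator as a linear map -/
noncomputable def opL (e : Fin 6 → HS M) : Module.End F (HS M) where
  toFun := op φ ψ e
  map_add' f f' := by
    unfold op
    rw [← Finset.sum_add_distrib]
    apply Finset.sum_congr rfl
    intro l _
    rw [iterate_map_add]
    ring
  map_smul' r f := by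
    unfold op
    rw [RingHom.id_apply, Finset.smul_sum]
    apply Finset.sum_congr rfl
    intro l _
    rw [alg_itsmul, mul_smul_comm]

/-- the ring of the operators -/
noncomputable def algS (hc : ∀ e e' : Fin 6 → HS M, ∃ e'' : Fin 6 → HS M,
    ∀ f, op φ ψ e (op φ ψ e' f) = op φ ψ e'' f) : Subring (Module.End F (HS M)) where
  carrier := {T | ∃ e : Fin 6 → HS M, ∀ f, T f = op φ ψ e f}
  mul_mem' := by
    rintro T T' ⟨e, he⟩ ⟨e', he'⟩
    obtain ⟨e'', h⟩ := hc e e'
    exact ⟨e'', fun f => by rw [Module.End.mul_apply, he, he', h]⟩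
  one_mem' := ⟨Pi.single 0 1, fun f => by
    rw [Module.End.one_apply, alg_single, map_one, one_mul]⟩
  add_mem' := by
    rintro T T' ⟨e, he⟩ ⟨e', he'⟩
    exact ⟨e + e', fun f => by rw [LinearMap.add_apply, he, he', alg_add]⟩
  zero_mem' := ⟨0, fun f => by
    rw [LinearMap.zero_apply]
    unfold op
    simp⟩
  neg_mem' := by
    rintro T ⟨e, he⟩
    exact ⟨-e, fun f => by rw [LinearMap.neg_apply, he, alg_neg]⟩

/-- the scalars -/
noncomputable def algK (K : IntermediateField F (HS M))
    (hc : ∀ e e' : Fin 6 → HS M, ∃ e'' : Fin 6 → HS M,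
    ∀ f, op φ ψ e (op φ ψ e' f) = op φ ψ e'' f) : K →+* algS φ ψ hc where
  toFun k := ⟨opL φ ψ (Pi.single 0 (k : HS M)), ⟨_, fun _ => rfl⟩⟩
  map_one' := by
    apply Subtype.ext
    apply LinearMap.ext
    intro f
    show op φ ψ (Pi.single 0 ((1 : K) : HS M)) f = f
    rw [alg_single]
    simp
  map_mul' k k' := by
    apply Subtype.ext
    apply LinearMap.ext
    intro f
    show op φ ψ (Pi.single 0 ((k * k' : K) : HS M)) f =
      op φ ψ (Pi.single 0 (k : HS M)) (op φ ψ (Pi.single 0 (k' : HS M)) f)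
    rw [alg_single, alg_single, alg_single, ← mul_assoc, ← map_mul]
    rfl
  map_zero' := by
    apply Subtype.ext
    apply LinearMap.ext
    intro f
    show op φ ψ (Pi.single 0 ((0 : K) : HS M)) f = 0
    rw [alg_single]
    simp
  map_add' k k' := by
    apply Subtype.ext
    apply LinearMap.ext
    intro f
    show op φ ψ (Pi.single 0 ((k + k' : K) : HS M)) f =
      op φ ψ (Pi.single 0 (k : HS M)) f + op φ ψ (Pi.single 0 (k' : HS M)) f
    rw [alg_single, alg_single, alg_single, ← add_mul, ← map_add]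
    rfl

end ops

theorem st_ALG (hGD : ST_GD.{u}) (hOM : ST_OM.{u}) : ST_ALG.{u} := by
  intro F M _ _ _ σ φ ψ hφ hψ hσ K hK
  have hc := hOM F M σ φ ψ hφ hψ hσ
  have hinj : ∀ e e' : Fin 6 → HS M, (∀ f, op φ ψ e f = op φ ψ e' f) → e = e' := by
    intro e e' h
    by_contra hne
    have h1 := (hGD F M σ φ ψ hφ hψ hσ (e - e') (sub_ne_zero.mpr hne) 1 one_ne_zero).1
    apply h1
    rw [sub_eq_add_neg, alg_add, alg_neg, h, add_neg_cancel]
  have hcen : ∀ (k : K) (x : algS φ ψ hc), algK φ ψ K hc k * x = x * algK φ ψ K hc k := by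
    rintro k ⟨T, e, he⟩
    apply Subtype.ext
    apply LinearMap.ext
    intro f
    show op φ ψ (Pi.single 0 (k : HS M)) (T f) = T (op φ ψ (Pi.single 0 (k : HS M)) f)
    rw [alg_single, alg_single, he, he, alg_fmul]
    rw [alg_comm σ φ ψ hφ hψ, (hK _).1 k.2]
  letI alg : Algebra K (algS φ ψ hc) := (algK φ ψ K hc).toAlgebra' hcen
  let G : (Fin 6 → HS M) →ₗ[K] algS φ ψ hc :=
    { toFun := fun e => ⟨opL φ ψ e, ⟨e, fun _ => rfl⟩⟩
      map_add' := by
        intro e e'
        apply Subtype.ext
        apply LinearMap.ext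
        intro f
        exact alg_add φ ψ e e' f
      map_smul' := by
        intro k e
        rw [RingHom.id_apply, Algebra.smul_def]
        apply Subtype.ext
        apply LinearMap.ext
        intro f
        show op φ ψ (fun l => (k : HS M) * e l) f =
          op φ ψ (Pi.single 0 (k : HS M)) (op φ ψ e f)
        rw [alg_smul, alg_single] }
  have hG : Function.Bijective G := by
    constructor
    · intro e e' h
      apply hinj
      intro f
      exact congrArg (fun T : algS φ ψ hc => (T : Module.End F (HS M)) f) h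
    · rintro ⟨T, e, he⟩
      refine ⟨e, ?_⟩
      apply Subtype.ext
      apply LinearMap.ext
      intro f
      exact (he f).symm
  refine ⟨algS φ ψ hc, inferInstance, alg, (LinearEquiv.ofBijective G hG).symm,
    (algS φ ψ hc).subtype, ?_, ?_⟩
  · intro a f
    have h := (LinearEquiv.ofBijective G hG).apply_symm_apply a
    exact (congrArg (fun T : algS φ ψ hc => (T : Module.End F (HS M)) f) h).symm
  · intro k f
    exact alg_single φ ψ (k : HS M) f

end Pool.Agent.Helper43.PZ
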